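import Pool.Agent.Helper3_PQE.Stmts
import Pool.Agent.Helper76_PQX.Rad

set_option autoImplicit false

/-!
# Radicals satisfy the condition on germs, with an exceptional hypersurface
-/

universe u

open MvPolynomial PGH PGL

namespace Pool.Agent.PQE.H90

open BranchedTowers Pool.Agent.PQX.H76

section Values

variable {k E : Type u} [Field k] [Field E] [Algebra k E]

theorem ge_aeval (P : Place k E) {n : ℕ} (x : Fin n → E) (hx : ∀ l, P.Ge 0 (x l))
    (p : MvPolynomial (Fin n) k) : P.Ge 0 (aeval x p) := by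
  induction p using MvPolynomial.induction_on with
  | C c =>
    rw [aeval_C]
    exact P.ge_const c
  | add p q hp hq =>
    rw [map_add]
    exact hp.add hq
  | mul_X p v hp =>
    rw [map_mul, aeval_X]
    exact hp.mul' (hx v) (by omega)

theorem ord_of_dvd (P : Place k E) {n : ℕ} (x : Fin n → E) (hx : ∀ l, P.Ge 0 (x l))
    {H w : MvPolynomial (Fin n) k} (hH : ¬ P.Ge 1 (aeval x H)) {c : ℕ} (hw : w ∣ H ^ c) :
    aeval x w ≠ 0 ∧ P.ord (aeval x w) = 0 := by
  obtain ⟨v, hv⟩ := hw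
  have h1 : aeval x H ≠ 0 := by
    intro h
    rw [h] at hH
    exact hH (P.ge_zero 1)
  have h2 : aeval x w * aeval x v = aeval x H ^ c := by
    rw [← map_mul, ← hv, map_pow]
  have h3 : aeval x w * aeval x v ≠ 0 := by
    rw [h2]
    exact pow_ne_zero _ h1
  have h4 := left_ne_zero_of_mul h3
  have h5 := right_ne_zero_of_mul h3
  refine ⟨h4, ?_⟩
  have h6 := congrArg P.ord h2
  have h7 := ge_aeval P x hx H
  have h8 := ge_aeval P x hx w
  have h9 := ge_aeval P x hx v
  rw [P.ge_iff h1] at h7 hH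
  rw [P.ge_iff h4] at h8
  rw [P.ge_iff h5] at h9
  have h10 : P.ord (aeval x H) = 0 := by omega
  rw [P.ord_mul h4 h5, P.ord_pow, h10, mul_zero] at h6
  omega

variable {M : Type u} [Field M] [Algebra k M] {S : Subalgebra k M} (φ : S →ₐ[k] E)

theorem ev_eval₂ {n : ℕ} (x : Fin n → M) (hx : ∀ l, x l ∈ S) (p : MvPolynomial (Fin n) k) :
    eval₂ (algebraMap k M) x p ∈ S ∧
      ev φ (eval₂ (algebraMap k M) x p) = aeval (fun l => ev φ (x l)) p := by
  have h1 : ((aeval (fun l => (⟨x l, hx l⟩ : S)) p : S) : M) = eval₂ (algebraMap k M) x p := by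
    have h2 := MvPolynomial.map_aeval (fun l => (⟨x l, hx l⟩ : S)) (S.val : S →+* M) p
    have h3 : (S.val : S →+* M).comp (algebraMap k S) = algebraMap k M := rfl
    rw [h3] at h2
    exact h2
  have h4 : eval₂ (algebraMap k M) x p ∈ S := by
    rw [← h1]
    exact Subtype.property _
  refine ⟨h4, ?_⟩
  rw [ev_mem φ h4]
  have h5 : (⟨eval₂ (algebraMap k M) x p, h4⟩ : S) = aeval (fun l => (⟨x l, hx l⟩ : S)) p :=
    Subtype.ext h1.symm
  rw [h5, ← AlgHom.comp_apply, comp_aeval]
  congr 2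
  funext l
  exact (ev_mem φ (hx l)).symm

end Values

/-- RAD: radicals satisfy the condition on germs. -/
theorem rad : RadStmt.{u} := by
  intro k M _ _ _ _ _ F n x A H hx _ hrad
  classical
  obtain ⟨R, e, m, b, z, w, hrel, hram⟩ := hrad
  have hne : ∀ l (a : k), x l - algebraMap k M a ≠ 0 := by
    intro l a h
    have h1 : x l = algebraMap k M a := sub_eq_zero.1 h
    have h2 : Transcendental k (x l) := hx.transcendental l
    rw [h1] at h2
    exact h2 (isAlgebraic_algebraMap a)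
  refine ⟨(Set.range b ∪ Set.range z) ∪
    ⋃ l : Fin n, (((A l).image fun a => (x l - algebraMap k M a)⁻¹ : Finset M) : Set M), ?_, ?_⟩
  · refine ((Set.finite_range b).union (Set.finite_range z)).union ?_
    exact Set.finite_iUnion fun l => Finset.finite_toSet _
  intro E _ _ _ S hTS hxS φ P hP hreg hH l a ha hord
  have hbS : ∀ r, b r ∈ S := fun r => hTS (Or.inl (Or.inl ⟨r, rfl⟩))
  have hzS : ∀ r, z r ∈ S := fun r => hTS (Or.inl (Or.inr ⟨r, rfl⟩))
  have hiS : ∀ l, ∀ a ∈ A l, (x l - algebraMap k M a)⁻¹ ∈ S := by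
    intro l a ha
    refine hTS (Or.inr (Set.mem_iUnion.2 ⟨l, ?_⟩))
    exact Finset.mem_coe.2 (Finset.mem_image.2 ⟨a, ha, rfl⟩)
  have hxaS : ∀ l (a : k), x l - algebraMap k M a ∈ S := fun l a =>
    sub_mem (hxS l) (S.algebraMap_mem a)
  have hev : ∀ l (a : k), ev φ (x l - algebraMap k M a) = ev φ (x l) - algebraMap k E a := by
    intro l a
    rw [ev_sub' φ (hxS l) (S.algebraMap_mem a), ev_alg]
  have hev0 : ∀ l, ∀ a ∈ A l, ev φ (x l) - algebraMap k E a ≠ 0 := by
    intro l a ha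
    rw [← hev]
    exact ev_ne_zero φ (hxaS l a) (hiS l a ha) (hne l a)
  have hb0 : ∀ r, P.ord (ev φ (b r)) = 0 ∧ ev φ (b r) ≠ 0 := by
    intro r
    obtain ⟨h1, h2⟩ := hP (b r) (Or.inl (Or.inl ⟨r, rfl⟩)) (hrel r).1 (hrel r).2.1
    have h3 : ev φ (b r) ≠ 0 := by
      intro h
      rw [h] at h2
      exact h2 (P.ge_zero 1)
    refine ⟨?_, h3⟩
    rw [P.ge_iff h3] at h1 h2
    omega
  by_contra hcon
  push Not at hcon
  -- the orders of the other factors
  have h0 : ∀ l', ∀ a' ∈ A l', (l' = l → a' ≠ a) →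
      P.ord (ev φ (x l') - algebraMap k E a') = 0 := by
    intro l' a' ha' hne'
    by_cases h : l' = l
    · subst h
      have h1 : a' ≠ a := hne' rfl
      have h2 : ¬ P.Ge 1 (ev φ (x l') - algebraMap k E a') := by
        intro h3
        have h4 : P.Ge 1 (ev φ (x l') - algebraMap k E a) := by
          rw [P.ge_iff (hev0 l' a ha), hord]
        have h5 := h4.sub h3
        have h6 : ev φ (x l') - algebraMap k E a - (ev φ (x l') - algebraMap k E a') =
            algebraMap k E (a' - a) := by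
          rw [map_sub]
          ring
        rw [h6, P.ge_iff (by
          rw [Ne, map_eq_zero]
          exact sub_ne_zero.2 h1), P.ord_const] at h5
        omega
      have h3 : P.Ge 0 (ev φ (x l') - algebraMap k E a') := (hreg l').sub (P.ge_const _)
      rw [P.ge_iff (hev0 l' a' ha')] at h2 h3
      omega
    · have h2 := hcon l' h a' ha'
      have h3 : P.Ge 0 (ev φ (x l') - algebraMap k E a') := (hreg l').sub (P.ge_const _)
      rw [P.ge_iff (hev0 l' a' ha')] at h2 h3
      omega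
  obtain ⟨r, hr⟩ := hram l a ha
  apply hr
  obtain ⟨cc, hcc⟩ := (hrel r).2.2.1
  obtain ⟨hw0, hword⟩ := ord_of_dvd P (fun l => ev φ (x l)) hreg hH hcc
  obtain ⟨hwS, hwev⟩ := ev_eval₂ φ x hxS (w r)
  have hPS : ∏ l, ∏ a ∈ A l, (x l - algebraMap k M a) ^ e l a r ∈ S :=
    prod_mem fun l _ => prod_mem fun a ha => zpow_mem' (hxaS l a) (hiS l a ha) _
  have hprod : aeval (fun l => ev φ (x l)) (w r) *
      ∏ l, ∏ a ∈ A l, (ev φ (x l) - algebraMap k E a) ^ e l a r =
      ev φ (b r) * ev φ (z r) ^ m r := by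
    rw [← ev_pow φ (hzS r), ← ev_mul φ (hbS r) (pow_mem (hzS r) _), ← (hrel r).2.2.2,
      ev_mul φ hwS hPS, hwev, ev_prod' φ]
    · congr 1
      refine Finset.prod_congr rfl fun l _ => ?_
      rw [ev_prod' φ]
      · refine Finset.prod_congr rfl fun a ha => ?_
        rw [ev_zpow' φ (hxaS l a) (hiS l a ha) (hne l a), hev]
      · exact fun a ha => zpow_mem' (hxaS l a) (hiS l a ha) _
    · exact fun l _ => prod_mem fun a ha => zpow_mem' (hxaS l a) (hiS l a ha) _
  have hin0 : ∀ l, ∏ a ∈ A l, (ev φ (x l) - algebraMap k E a) ^ e l a r ≠ 0 := fun l =>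
    Finset.prod_ne_zero_iff.2 fun a ha => zpow_ne_zero _ (hev0 l a ha)
  have hL : ∏ l, ∏ a ∈ A l, (ev φ (x l) - algebraMap k E a) ^ e l a r ≠ 0 :=
    Finset.prod_ne_zero_iff.2 fun l _ => hin0 l
  have hz : ev φ (z r) ^ m r ≠ 0 := by
    intro h
    rw [h, mul_zero] at hprod
    exact mul_ne_zero hw0 hL hprod
  have h1 := congrArg P.ord hprod
  rw [P.ord_mul hw0 hL, hword, zero_add, DP.ord_prod' P Finset.univ _ (fun l _ => hin0 l),
    P.ord_mul (hb0 r).2 hz, (hb0 r).1, zero_add, P.ord_pow] at h1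
  have h2 : ∀ l', P.ord (∏ a ∈ A l', (ev φ (x l') - algebraMap k E a) ^ e l' a r) =
      if l' = l then e l a r else 0 := by
    intro l'
    rw [DP.ord_prod' P (A l') _ (fun a ha => zpow_ne_zero _ (hev0 l' a ha))]
    split_ifs with h
    · subst h
      rw [Finset.sum_eq_single a]
      · rw [P.ord_zpow, hord, mul_one]
      · intro a' ha' hne'
        rw [P.ord_zpow, h0 l' a' ha' (fun _ => hne'), mul_zero]
      · intro h; exact absurd ha h
    · refine Finset.sum_eq_zero fun a' ha' => ?_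
      rw [P.ord_zpow, h0 l' a' ha' (fun h' => absurd h' h), mul_zero]
  rw [Finset.sum_congr rfl (fun l' _ => h2 l'), Finset.sum_ite_eq' Finset.univ l
    (fun _ => e l a r), if_pos (Finset.mem_univ _)] at h1
  exact ⟨P.ord (ev φ (z r)), by linarith⟩

end Pool.Agent.PQE.H90
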